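import Mathlib

set_option autoImplicit false
open Filter Topology MvPolynomial

namespace Pool.Agent.Results.MP_a75ade_an.Diverge

noncomputable def idx (p : ℕ × ℕ) : Fin 2 →₀ ℕ := Finsupp.single 0 p.1 + Finsupp.single 1 p.2

def IsInterp (n ν : ℕ) (S : Finset (ℕ × ℕ)) : Prop :=
  S.card = (n + 1) * (n + 2) / 2 + (ν + 1) * (ν + 2) / 2 - 1 ∧
    (∀ j k, j + k ≤ n → (j, k) ∈ S) ∧
    ∀ j k l m, (j, k) ∈ S → l ≤ j → m ≤ k → (l, m) ∈ S

def IsApprox (c : MvPowerSeries (Fin 2) ℂ) (n ν : ℕ) (S : Finset (ℕ × ℕ))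
    (P Q : MvPolynomial (Fin 2) ℂ) : Prop :=
  Q ≠ 0 ∧ P.totalDegree ≤ n ∧ Q.totalDegree ≤ ν ∧
    ∀ p ∈ S, MvPowerSeries.coeff (idx p)
      ((Q : MvPowerSeries (Fin 2) ℂ) * c - (P : MvPowerSeries (Fin 2) ℂ)) = 0

lemma i0 (p : ℕ × ℕ) : idx p 0 = p.1 := by simp [idx]

lemma i1 (p : ℕ × ℕ) : idx p 1 = p.2 := by simp [idx]

lemma iinj {p q : ℕ × ℕ} : idx p = idx q ↔ p.1 = q.1 ∧ p.2 = q.2 :=
  ⟨fun h => ⟨by rw [← i0, h, i0], by rw [← i1, h, i1]⟩, fun h => by rw [Prod.ext h.1 h.2]⟩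

lemma ile {p q : ℕ × ℕ} : idx p ≤ idx q ↔ p.1 ≤ q.1 ∧ p.2 ≤ q.2 := by
  rw [Finsupp.le_def, Fin.forall_fin_two, i0, i0, i1, i1]

lemma isum (p : ℕ × ℕ) : ((idx p).sum fun _ e => e) = p.1 + p.2 := by
  rw [Finsupp.sum_fintype _ _ fun _ => rfl, Fin.sum_univ_two, i0, i1]

noncomputable def mo (a b : ℕ) : MvPolynomial (Fin 2) ℂ := monomial (idx (a, b)) 1

noncomputable def cc : MvPowerSeries (Fin 2) ℂ := fun m => if m 0 = m 1 then 1 else 0

lemma dmo (a b : ℕ) : (mo a b).totalDegree = a + b := by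
  rw [mo, totalDegree_monomial _ one_ne_zero, isum]

lemma emo (z : Fin 2 → ℂ) (a b : ℕ) : eval z (mo a b) = z 0 ^ a * z 1 ^ b := by
  rw [mo, eval_monomial, Finsupp.prod_fintype _ _ (fun _ => pow_zero _), Fin.prod_univ_two, i0, i1,
    one_mul]

lemma cmo (a b j k : ℕ) :
    MvPowerSeries.coeff (idx (j, k)) ((mo a b : MvPowerSeries (Fin 2) ℂ) * cc) =
      if a ≤ j ∧ b ≤ k ∧ j + b = k + a then 1 else 0 := by
  rw [mo, coe_monomial, MvPowerSeries.coeff_monomial_mul, MvPowerSeries.coeff_apply]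
  simp only [ile, cc, Finsupp.coe_tsub, Pi.sub_apply, i0, i1, one_mul]
  split_ifs <;> first | rfl | omega

lemma cm (a b j k : ℕ) : MvPowerSeries.coeff (idx (j, k)) (mo a b : MvPowerSeries (Fin 2) ℂ) =
    if a = j ∧ b = k then 1 else 0 := by
  rw [coeff_coe, mo, coeff_monomial]
  simp only [iinj]

lemma cs (p q : MvPolynomial (Fin 2) ℂ) : ((p - q : MvPolynomial (Fin 2) ℂ) :
    MvPowerSeries (Fin 2) ℂ) = p - q := map_sub coeToMvPowerSeries.ringHom p q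

lemma cG (j k : ℕ) : MvPowerSeries.coeff (idx (j, k))
    (((mo 0 0 - mo 1 1 : MvPolynomial (Fin 2) ℂ) : MvPowerSeries (Fin 2) ℂ) * cc -
      ((mo 0 0 : MvPolynomial (Fin 2) ℂ) : MvPowerSeries (Fin 2) ℂ)) = 0 := by
  rw [cs, sub_mul, map_sub, map_sub, cmo, cmo, cm]
  split_ifs <;> first | omega | simp

lemma dG : (mo 0 0 - mo 1 1).totalDegree = 2 := by
  refine le_antisymm ((totalDegree_sub _ _).trans (by simp [dmo])) ?_
  have := le_totalDegree (p := mo 0 0 - mo 1 1) (s := idx (1, 1)) (by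
    simp [mem_support_iff, mo, coeff_monomial, iinj])
  rwa [isum] at this

lemma miss {n : ℕ} (h2 : 2 ≤ n) (he : Even n) {S : Finset (ℕ × ℕ)} (hS : IsInterp n 2 S) :
    ∃ a b : ℕ, 1 ≤ a + b ∧ a + b ≤ 2 ∧ ∀ j k, (j, k) ∈ S → j + b = k + a → j + k ≤ n := by
  by_contra! h
  obtain ⟨j1, k1, s1, d1, e1⟩ := h 1 1 (by omega) (by omega)
  obtain ⟨j2, k2, s2, d2, e2⟩ := h 1 0 (by omega) (by omega)
  obtain ⟨j3, k3, s3, d3, e3⟩ := h 0 1 (by omega) (by omega)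
  obtain ⟨j4, k4, s4, d4, e4⟩ := h 2 0 (by omega) (by omega)
  obtain ⟨j5, k5, s5, d5, e5⟩ := h 0 2 (by omega) (by omega)
  obtain ⟨r, hr⟩ := he
  have s6 := hS.2.2 j4 k4 j4 (k4 - 1) s4 le_rfl (by omega)
  set T := (Finset.range (n + 1)).biUnion (fun i => Finset.HasAntidiagonal.antidiagonal i) with hT
  have mT : ∀ p : ℕ × ℕ, p ∈ T ↔ p.1 + p.2 ≤ n := fun p => by
    simp [hT]
  have cT : T.card * 2 = (n + 1) * (n + 2) := by
    rw [hT, Finset.card_biUnion]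
    · simp only [Finset.Nat.card_antidiagonal]
      have := Finset.sum_range_id_mul_two (n + 2)
      rw [Finset.sum_range_succ'] at this
      simpa [mul_comm] using this
    · intro x _ y _ hxy
      refine Finset.disjoint_left.2 fun p h1 h2 => hxy ?_
      exact (Finset.HasAntidiagonal.mem_antidiagonal.1 h1).symm.trans
        (Finset.HasAntidiagonal.mem_antidiagonal.1 h2)
  have sub : insert (j1, k1) (insert (j2, k2) (insert (j3, k3) (insert (j4, k4) (insert (j5, k5)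
      (insert (j4, k4 - 1) T))))) ⊆ S := by
    simp only [Finset.insert_subset_iff]
    exact ⟨s1, s2, s3, s4, s5, s6, fun p hp => hS.2.1 p.1 p.2 ((mT p).1 hp)⟩
  have := Finset.card_le_card sub
  rw [Finset.card_insert_of_notMem, Finset.card_insert_of_notMem, Finset.card_insert_of_notMem,
    Finset.card_insert_of_notMem, Finset.card_insert_of_notMem, Finset.card_insert_of_notMem,
    hS.1] at this
  · omega
  all_goals simp only [Finset.mem_insert, mT, Prod.mk.injEq]; omega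

lemma bad {n : ℕ} (h2 : 2 ≤ n) (he : Even n) {S : Finset (ℕ × ℕ)} (hS : IsInterp n 2 S) :
    ∃ P Q, IsApprox cc n 2 S P Q ∧ eval 0 Q = 1 ∧ ‖eval (fun _ => 2) Q‖ = 1 ∧
      1 ≤ ‖eval (fun _ => 2) P‖ := by
  obtain ⟨a, b, h1, h3, h⟩ := miss h2 he hS
  have e0 : eval 0 (mo 0 0 - mo 1 1 + mo a b) = 1 := by
    simp only [map_add, map_sub, emo, Pi.zero_apply, ← pow_add]
    rw [zero_pow (by omega : a + b ≠ 0)]; simp
  refine ⟨mo 0 0 + ∑ i ∈ (Finset.range (n + 1)).filter (fun i => a + i + (b + i) ≤ n),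
    mo (a + i) (b + i), mo 0 0 - mo 1 1 + mo a b, ⟨?_, ?_, ?_, ?_⟩, e0, ?_, ?_⟩
  · intro h0; rw [h0] at e0; simp at e0
  · refine (totalDegree_add _ _).trans (max_le (by simp [dmo]) (totalDegree_finsetSum_le ?_))
    intro i hi
    rw [dmo]; exact (Finset.mem_filter.1 hi).2
  · exact (totalDegree_add _ _).trans (max_le dG.le (by rw [dmo]; exact h3))
  · rintro ⟨j, k⟩ hp
    rw [coe_add, coe_add, add_mul, add_sub_add_comm, map_add, cG, zero_add, map_sub, cmo, coeff_coe,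
      coeff_sum]
    simp only [← coeff_coe, cm]
    split_ifs with hc
    · have := h j k hp hc.2.2
      rw [Finset.sum_eq_single (j - a), if_pos (by omega), sub_self]
      · intro i _ hi; exact if_neg (by omega)
      · intro hi; exact absurd (Finset.mem_filter.2 ⟨Finset.mem_range.2 (by omega), by omega⟩) hi
    · rw [Finset.sum_eq_zero fun i _ => if_neg (by omega), sub_self]
  · simp only [map_add, map_sub, emo, ← pow_add]
    obtain h4 | h4 : a + b = 1 ∨ a + b = 2 := by omega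
    all_goals rw [h4]; norm_num
  · simp only [map_add, map_sum, emo]
    refine le_trans ?_ (Complex.re_le_norm _)
    simp only [pow_zero, mul_one, Complex.add_re, Complex.one_re, Complex.re_sum,
      le_add_iff_nonneg_right]
    refine Finset.sum_nonneg fun i _ => ?_
    rw [← pow_add, ← Complex.ofReal_ofNat, ← Complex.ofReal_pow, Complex.ofReal_re]
    positivity

theorem result : ∃ (ν : ℕ) (F : (Fin 2 → ℂ) → ℂ) (G : MvPolynomial (Fin 2) ℂ)
    (c : MvPowerSeries (Fin 2) ℂ), 1 ≤ ν ∧ Differentiable ℂ F ∧ (∀ z, F z ≠ 0) ∧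
    G.totalDegree = ν ∧ eval 0 G ≠ 0 ∧
    (∀ᶠ z in 𝓝 (0 : Fin 2 → ℂ), HasSum (fun p : ℕ × ℕ =>
      MvPowerSeries.coeff (idx p) c * (z 0 ^ p.1 * z 1 ^ p.2)) (F z / eval z G)) ∧
    ∀ S : ℕ → Finset (ℕ × ℕ), (∀ n, IsInterp n ν (S n)) →
      ∃ P Q : ℕ → MvPolynomial (Fin 2) ℂ, (∀ n, IsApprox c n ν (S n) (P n) (Q n)) ∧
        (∀ n, eval 0 (Q n) ≠ 0) ∧ ∃ z : Fin 2 → ℂ, eval z G ≠ 0 ∧ (∀ n, eval z (Q n) ≠ 0) ∧
          ¬ Tendsto (fun n => eval z (P n) / eval z (Q n)) atTop (𝓝 (F z / eval z G)) := by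
  have g0 : eval 0 (mo 0 0 - mo 1 1) = 1 := by rw [map_sub, emo, emo]; simp
  have g2 : eval (fun _ => 2) (mo 0 0 - mo 1 1) = -3 := by simp [emo]; norm_num
  refine ⟨2, fun _ => 1, mo 0 0 - mo 1 1, cc, one_le_two, differentiable_const _,
    fun _ => one_ne_zero, dG, g0 ▸ one_ne_zero, ?_, fun S hS => ?_⟩
  · have : ∀ᶠ z in 𝓝 (0 : Fin 2 → ℂ), ‖z 0 * z 1‖ < 1 :=
      ContinuousAt.eventually_lt (f := fun z : Fin 2 → ℂ => ‖z 0 * z 1‖) (by fun_prop)
        continuousAt_const (by simp)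
    filter_upwards [this] with z hz
    refine (Function.Injective.hasSum_iff (g := fun k : ℕ => (k, k))
      (fun _ _ h => congrArg Prod.fst h) ?_).1 ?_
    · rintro ⟨j, k⟩ hp
      have : j ≠ k := fun h => hp ⟨j, by rw [h]⟩
      simp [MvPowerSeries.coeff_apply, cc, i0, i1, this]
    · simpa [Function.comp_def, MvPowerSeries.coeff_apply, cc, i0, i1, emo, mul_pow] using
        hasSum_geometric_of_norm_lt_one hz
  have key : ∀ n, ∃ P Q, IsApprox cc n 2 (S n) P Q ∧ eval 0 Q ≠ 0 ∧ eval (fun _ => 2) Q ≠ 0 ∧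
      (2 ≤ n → Even n → 1 ≤ ‖eval (fun _ => 2) P / eval (fun _ => 2) Q‖) := fun n => by
    by_cases h : 2 ≤ n ∧ Even n
    · obtain ⟨P, Q, a1, a2, a3, a4⟩ := bad h.1 h.2 (hS n)
      exact ⟨P, Q, a1, a2 ▸ one_ne_zero, fun h0 => by simp [h0] at a3,
        fun _ _ => by rwa [norm_div, a3, div_one]⟩
    · exact ⟨mo 0 0, mo 0 0 - mo 1 1, ⟨fun h0 => by rw [h0] at g0; simp at g0, by simp [dmo], dG.le,
        fun p _ => cG p.1 p.2⟩, g0 ▸ one_ne_zero, by simp [g2], fun a b => (h ⟨a, b⟩).elim⟩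
  choose P Q h1 h2 h3 h4 using key
  refine ⟨P, Q, h1, h2, fun _ => 2, by simp [g2], h3, fun h => ?_⟩
  obtain ⟨N, hN⟩ := eventually_atTop.1 (h.norm.eventually (gt_mem_nhds (a := 1) (by
    rw [g2]; norm_num)))
  exact absurd (hN (2 * N + 2) (by omega)) (not_lt.2 (h4 _ (by omega) ⟨N + 1, by ring⟩))

end Pool.Agent.Results.MP_a75ade_an.Diverge
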